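import Pool.Agent.Q258.Arens.Shift

set_option autoImplicit false

/-!
# The algebra of operators approximable by finite sections, and openness of its multiplication
-/

namespace Pool.Agent.Q258.Arens

open Filter Topology Finset

section factor

variable {𝕜 : Type} [RCLike 𝕜] {R : Type} [NonUnitalNormedRing R] [NormedSpace 𝕜 R]
  [IsScalarTower 𝕜 R R] [SMulCommClass 𝕜 R R] [CompleteSpace R]

theorem norm_two_pow (k : ℕ) : ‖(2 : 𝕜) ^ k‖ = 2 ^ k := by
  rw [norm_pow]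
  simp

theorem norm_two_inv_pow (k : ℕ) : ‖((2 : 𝕜)⁻¹) ^ k‖ = (1 / 2) ^ k := by
  rw [norm_pow, norm_inv]
  simp

include 𝕜 in
theorem factor (q : ℕ → R) (hq : ∀ k, ‖q k‖ ≤ 2) (horth : ∀ j k, j ≠ k → q j * q k = 0)
    (hidem : ∀ k, q k * q k = q k) (z : R) (c : ℝ)
    (hz : ∀ k, ‖q k * z‖ ≤ 2 * c * (1 / 4) ^ k)
    (hsum : Tendsto (fun K => ∑ k ∈ range K, q k * z) atTop (𝓝 z)) :
    ∃ a b : R, a * b = z ∧ ‖a‖ ≤ 4 ∧ ‖b‖ ≤ 4 * c := by
  have g : HasSum (fun k : ℕ => (1 / 2 : ℝ) ^ k) 2 := hasSum_geometric_two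
  have ga : HasSum (fun k : ℕ => 2 * (1 / 2 : ℝ) ^ k) 4 := by
    have := g.mul_left 2
    norm_num at this
    exact this
  have gb : HasSum (fun k : ℕ => 2 * c * (1 / 2 : ℝ) ^ k) (4 * c) := by
    have := g.mul_left (2 * c)
    rw [show 2 * c * 2 = 4 * c by ring] at this
    exact this
  have na : ∀ k, ‖((2 : 𝕜)⁻¹) ^ k • q k‖ ≤ 2 * (1 / 2 : ℝ) ^ k := by
    intro k
    rw [norm_smul, norm_two_inv_pow, mul_comm]
    exact mul_le_mul_of_nonneg_right (hq k) (by positivity)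
  have nb : ∀ k, ‖(2 : 𝕜) ^ k • (q k * z)‖ ≤ 2 * c * (1 / 2 : ℝ) ^ k := by
    intro k
    rw [norm_smul, norm_two_pow]
    calc (2 : ℝ) ^ k * ‖q k * z‖ ≤ 2 ^ k * (2 * c * (1 / 4) ^ k) :=
          mul_le_mul_of_nonneg_left (hz k) (by positivity)
      _ = 2 * c * (2 * (1 / 4)) ^ k := by rw [mul_pow]; ring
      _ = _ := by norm_num
  have sa : Summable (fun k => ((2 : 𝕜)⁻¹) ^ k • q k) := Summable.of_norm_bounded ga.summable na
  have sb : Summable (fun k => (2 : 𝕜) ^ k • (q k * z)) := Summable.of_norm_bounded gb.summable nb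
  have haq : ∀ k, (∑' j, ((2 : 𝕜)⁻¹) ^ j • q j) * q k = ((2 : 𝕜)⁻¹) ^ k • q k := by
    intro k
    rw [← sa.tsum_mul_right (q k)]
    rw [tsum_eq_single k]
    · rw [smul_mul_assoc, hidem]
    · intro j hj
      rw [smul_mul_assoc, horth j k hj, smul_zero]
  refine ⟨∑' k, ((2 : 𝕜)⁻¹) ^ k • q k, ∑' k, (2 : 𝕜) ^ k • (q k * z), ?_, ?_, ?_⟩
  · rw [← sb.tsum_mul_left]
    have h1 : ∀ k, (∑' j, ((2 : 𝕜)⁻¹) ^ j • q j) * ((2 : 𝕜) ^ k • (q k * z)) = q k * z := by
      intro k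
      rw [mul_smul_comm, ← mul_assoc, haq, smul_mul_assoc, smul_smul, ← mul_pow,
        mul_inv_cancel₀ two_ne_zero, one_pow, one_smul]
    simp_rw [h1]
    have h2 : Summable (fun k => q k * z) := by
      refine Summable.of_norm_bounded gb.summable fun k => (hz k).trans ?_
      have hc : 0 ≤ 2 * c := by
        have := (norm_nonneg _).trans (hz 0)
        simpa using this
      exact mul_le_mul_of_nonneg_left (pow_le_pow_left₀ (by norm_num) (by norm_num) k) hc
    exact tendsto_nhds_unique h2.hasSum.tendsto_sum_nat hsum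
  · exact tsum_of_norm_bounded ga na
  · exact tsum_of_norm_bounded gb nb

end factor

section ops

/-- a pair of abstract shifts in a normed ring -/
structure Shifts (B : Type) [NormedRing B] where
  /-- left shift -/
  L : B
  /-- right shift -/
  S : B
  norm_L : ‖L‖ ≤ 1
  norm_S : ‖S‖ ≤ 1
  LS : L * S = 1

variable {𝕜 : Type} [RCLike 𝕜] {B : Type} [NormedRing B] [NormedAlgebra 𝕜 B]
  (σ : Shifts B)

theorem L_pow_mul_S_pow (n : ℕ) : σ.L ^ n * σ.S ^ n = 1 := by
  induction n with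
  | zero => simp
  | succ n ih =>
    rw [pow_succ, pow_succ', mul_assoc, ← mul_assoc σ.L, σ.LS, one_mul, ih]

theorem L_pow_mul_S_pow_le {m n : ℕ} (h : m ≤ n) : σ.L ^ m * σ.S ^ n = σ.S ^ (n - m) := by
  conv_lhs => rw [show n = m + (n - m) by omega, pow_add, ← mul_assoc, L_pow_mul_S_pow, one_mul]

theorem L_pow_mul_S_pow_ge {m n : ℕ} (h : m ≤ n) : σ.L ^ n * σ.S ^ m = σ.L ^ (n - m) := by
  conv_lhs => rw [show n = (n - m) + m by omega, pow_add, mul_assoc, L_pow_mul_S_pow, mul_one]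

theorem norm_L_pow_mul_le (n : ℕ) (T : B) : ‖σ.L ^ n * T‖ ≤ ‖T‖ := by
  induction n with
  | zero => simp
  | succ n ih =>
    rw [pow_succ', mul_assoc]
    calc ‖σ.L * (σ.L ^ n * T)‖ ≤ ‖σ.L‖ * ‖σ.L ^ n * T‖ := norm_mul_le _ _
      _ ≤ 1 * ‖σ.L ^ n * T‖ := mul_le_mul_of_nonneg_right σ.norm_L (norm_nonneg _)
      _ ≤ ‖T‖ := by rw [one_mul]; exact ih

theorem norm_S_pow_mul_le (n : ℕ) (T : B) : ‖σ.S ^ n * T‖ ≤ ‖T‖ := by
  induction n with
  | zero => simp
  | succ n ih =>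
    rw [pow_succ', mul_assoc]
    calc ‖σ.S * (σ.S ^ n * T)‖ ≤ ‖σ.S‖ * ‖σ.S ^ n * T‖ := norm_mul_le _ _
      _ ≤ 1 * ‖σ.S ^ n * T‖ := mul_le_mul_of_nonneg_right σ.norm_S (norm_nonneg _)
      _ ≤ ‖T‖ := by rw [one_mul]; exact ih

theorem norm_mul_S_pow_le (n : ℕ) (T : B) : ‖T * σ.S ^ n‖ ≤ ‖T‖ := by
  induction n with
  | zero => simp
  | succ n ih =>
    rw [pow_succ, ← mul_assoc]
    calc ‖T * σ.S ^ n * σ.S‖ ≤ ‖T * σ.S ^ n‖ * ‖σ.S‖ := norm_mul_le _ _
      _ ≤ ‖T * σ.S ^ n‖ * 1 := mul_le_mul_of_nonneg_left σ.norm_S (norm_nonneg _)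
      _ ≤ ‖T‖ := by rw [mul_one]; exact ih

theorem norm_mul_L_pow_le (n : ℕ) (T : B) : ‖T * σ.L ^ n‖ ≤ ‖T‖ := by
  induction n with
  | zero => simp
  | succ n ih =>
    rw [pow_succ, ← mul_assoc]
    calc ‖T * σ.L ^ n * σ.L‖ ≤ ‖T * σ.L ^ n‖ * ‖σ.L‖ := norm_mul_le _ _
      _ ≤ ‖T * σ.L ^ n‖ * 1 := mul_le_mul_of_nonneg_left σ.norm_L (norm_nonneg _)
      _ ≤ ‖T‖ := by rw [mul_one]; exact ih

/-- tail projections -/
def E (n : ℕ) : B := σ.S ^ n * σ.L ^ n

theorem E_zero : E σ 0 = 1 := by simp [E]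

theorem E_mul_E_le {m n : ℕ} (h : m ≤ n) : E σ m * E σ n = E σ n := by
  unfold E
  rw [mul_assoc, ← mul_assoc (σ.L ^ m), L_pow_mul_S_pow_le σ h, ← mul_assoc, ← pow_add,
    show m + (n - m) = n by omega]

theorem E_mul_E_ge {m n : ℕ} (h : m ≤ n) : E σ n * E σ m = E σ n := by
  unfold E
  rw [mul_assoc, ← mul_assoc (σ.L ^ n), L_pow_mul_S_pow_ge σ h, ← pow_add,
    show n - m + m = n by omega]

include σ in
theorem norm_one_le : ‖(1 : B)‖ ≤ 1 := by
  rw [← σ.LS]
  exact (norm_mul_le _ _).trans (mul_le_one₀ σ.norm_L (norm_nonneg _) σ.norm_S)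

theorem norm_E_le (n : ℕ) : ‖E σ n‖ ≤ 1 := by
  unfold E
  refine (norm_S_pow_mul_le σ _ _).trans ?_
  have := norm_L_pow_mul_le σ n (1 : B)
  rw [mul_one] at this
  exact this.trans (norm_one_le σ)

theorem norm_E_mul_le (n : ℕ) (T : B) : ‖E σ n * T‖ ≤ ‖σ.L ^ n * T‖ := by
  unfold E
  rw [mul_assoc]
  exact norm_S_pow_mul_le σ _ _

variable (𝕜) in
/-- The algebra of all bounded operators `T` on `ℓ²` with `Lⁿ T → 0` and `T Sⁿ → 0` in norm (these
are the compact operators). -/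
def A0 : NonUnitalSubalgebra 𝕜 B where
  carrier := {T | Tendsto (fun n => σ.L ^ n * T) atTop (𝓝 0) ∧
    Tendsto (fun n => T * σ.S ^ n) atTop (𝓝 0)}
  add_mem' := by
    rintro x y ⟨h1, h2⟩ ⟨h3, h4⟩
    constructor
    · have := h1.add h3
      rw [add_zero] at this
      refine this.congr fun n => ?_
      rw [mul_add]
    · have := h2.add h4
      rw [add_zero] at this
      refine this.congr fun n => ?_
      rw [add_mul]
  zero_mem' := by
    constructor <;> simp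
  mul_mem' := by
    rintro x y ⟨h1, h2⟩ ⟨h3, h4⟩
    constructor
    · have := h1.mul_const y
      rw [zero_mul] at this
      refine this.congr fun n => ?_
      rw [mul_assoc]
    · have := h4.const_mul x
      rw [mul_zero] at this
      refine this.congr fun n => ?_
      rw [mul_assoc]
  smul_mem' := by
    rintro c x ⟨h1, h2⟩
    constructor
    · have := h1.const_smul c
      rw [smul_zero] at this
      refine this.congr fun n => ?_
      rw [mul_smul_comm]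
    · have := h2.const_smul c
      rw [smul_zero] at this
      refine this.congr fun n => ?_
      rw [smul_mul_assoc]

theorem mem_A0 {T : B} : T ∈ A0 𝕜 σ ↔ Tendsto (fun n => σ.L ^ n * T) atTop (𝓝 0) ∧
    Tendsto (fun n => T * σ.S ^ n) atTop (𝓝 0) := Iff.rfl

theorem closed_aux (f : ℕ → B →+ B) (hf : ∀ n T, ‖f n T‖ ≤ ‖T‖) :
    IsClosed {T : B | Tendsto (fun n => f n T) atTop (𝓝 0)} := by
  rw [← isSeqClosed_iff_isClosed]
  intro u T hu hT
  rw [Set.mem_ofPred_eq, Metric.tendsto_atTop]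
  intro ε hε
  obtain ⟨k, hk⟩ := (Metric.tendsto_atTop.1 hT) (ε / 2) (by positivity)
  have hk := hk k le_rfl
  obtain ⟨N, hN⟩ := (Metric.tendsto_atTop.1 (hu k)) (ε / 2) (by positivity)
  refine ⟨N, fun n hn => ?_⟩
  have h1 := hN n hn
  rw [dist_zero_right] at h1 ⊢
  have h2 : f n T = f n (T - u k) + f n (u k) := by
    rw [map_sub]
    abel
  rw [h2]
  have h3 := hf n (T - u k)
  rw [dist_comm, dist_eq_norm] at hk
  calc ‖f n (T - u k) + f n (u k)‖ ≤ ‖f n (T - u k)‖ + ‖f n (u k)‖ := norm_add_le _ _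
    _ < ε / 2 + ε / 2 := by linarith
    _ = ε := by ring

theorem isClosed_A0 : IsClosed (A0 𝕜 σ : Set (B)) := by
  have h1 := closed_aux (fun n => AddMonoidHom.mulLeft (σ.L ^ n))
    (fun n T => norm_L_pow_mul_le σ n T)
  have h2 := closed_aux (fun n => AddMonoidHom.mulRight (σ.S ^ n))
    (fun n T => norm_mul_S_pow_le σ n T)
  exact h1.inter h2

instance [CompleteSpace B] : CompleteSpace (A0 𝕜 σ) := (isClosed_A0 σ).completeSpace_coe

noncomputable instance : NormedSpace 𝕜 (A0 𝕜 σ) :=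
  { (inferInstance : Module 𝕜 (A0 𝕜 σ)) with
    norm_smul_le := fun c x => norm_smul_le c (x : B) }

noncomputable example : NonUnitalNormedRing (A0 𝕜 σ) := inferInstance
example : IsScalarTower 𝕜 (A0 𝕜 σ) (A0 𝕜 σ) := inferInstance
example : SMulCommClass 𝕜 (A0 𝕜 σ) (A0 𝕜 σ) := inferInstance

theorem sub_mem_A0 {m n : ℕ} (h : m ≤ n) : E σ m - E σ n ∈ A0 𝕜 σ := by
  rw [mem_A0]
  constructor
  · refine tendsto_const_nhds.congr' ?_
    filter_upwards [eventually_ge_atTop n] with N hN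
    unfold E
    rw [mul_sub, ← mul_assoc, ← mul_assoc, L_pow_mul_S_pow_ge σ (h.trans hN), L_pow_mul_S_pow_ge σ hN,
      ← pow_add, ← pow_add, show N - m + m = N by omega, show N - n + n = N by omega, sub_self]
  · refine tendsto_const_nhds.congr' ?_
    filter_upwards [eventually_ge_atTop n] with N hN
    unfold E
    rw [sub_mul, mul_assoc, mul_assoc, L_pow_mul_S_pow_le σ (h.trans hN), L_pow_mul_S_pow_le σ hN,
      ← pow_add, ← pow_add, show m + (N - m) = N by omega, show n + (N - n) = N by omega, sub_self]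

variable [CompleteSpace B]

/-- Every element of the algebra is a product of two elements of controlled norm. -/
theorem factor_A0 (z : A0 𝕜 σ) (c : ℝ) (hc : 0 < c) (hz : ‖z‖ ≤ c) :
    ∃ a b : A0 𝕜 σ, a * b = z ∧ ‖a‖ ≤ 4 ∧ ‖b‖ ≤ 4 * c := by
  have h1 := ((mem_A0 σ).1 z.2).1
  have h2 : ∀ k : ℕ, ∃ N : ℕ, ∀ n, N ≤ n → ‖σ.L ^ n * z‖ ≤ c * (1 / 4) ^ k := by
    intro k
    obtain ⟨N, hN⟩ := (Metric.tendsto_atTop.1 h1) (c * (1 / 4) ^ k) (by positivity)
    refine ⟨N, fun n hn => ?_⟩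
    have := hN n hn
    rw [dist_zero_right] at this
    exact this.le
  choose N hN using h2
  set n : ℕ → ℕ := fun k => ∑ i ∈ range k, N (i + 1) with hn
  have hn0 : n 0 = 0 := by simp [hn]
  have hmono : Monotone n := by
    apply monotone_nat_of_le_succ
    intro k
    rw [hn]
    beta_reduce
    rw [sum_range_succ]
    omega
  have hb : ∀ k, ‖E σ (n k) * (z : B)‖ ≤ c * (1 / 4) ^ k := by
    intro k
    refine (norm_E_mul_le σ _ _).trans ?_
    cases k with
    | zero =>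
      rw [hn0, pow_zero, pow_zero, one_mul, mul_one]
      exact hz
    | succ k =>
      apply hN
      rw [hn]
      beta_reduce
      rw [sum_range_succ]
      omega
  have hEE : ∀ j k, j ≤ k → E σ (n j) * E σ (n k) = E σ (n k) := fun j k h => E_mul_E_le σ (hmono h)
  have hEE' : ∀ j k, j ≤ k → E σ (n k) * E σ (n j) = E σ (n k) := fun j k h => E_mul_E_ge σ (hmono h)
  set q : ℕ → A0 𝕜 σ := fun k => ⟨E σ (n k) - E σ (n (k + 1)), sub_mem_A0 σ (hmono (Nat.le_succ k))⟩ with hq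
  have hqc : ∀ k, ((q k : A0 𝕜 σ) : B) = E σ (n k) - E σ (n (k + 1)) := fun k => rfl
  refine factor (𝕜 := 𝕜) q ?_ ?_ ?_ z c ?_ ?_
  · intro k
    change ‖E σ (n k) - E σ (n (k + 1))‖ ≤ 2
    refine (norm_sub_le _ _).trans ?_
    linarith [norm_E_le σ (n k), norm_E_le σ (n (k + 1))]
  · intro j k hjk
    apply Subtype.ext
    change (E σ (n j) - E σ (n (j + 1))) * (E σ (n k) - E σ (n (k + 1))) = 0
    rcases lt_or_gt_of_ne hjk with h | h
    · rw [sub_mul, mul_sub, mul_sub, hEE j k h.le, hEE j (k + 1) (by omega), hEE (j + 1) k h,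
        hEE (j + 1) (k + 1) (by omega), sub_self]
    · rw [sub_mul, mul_sub, mul_sub, hEE' k j h.le, hEE' (k + 1) j h, hEE' k (j + 1) (by omega),
        hEE' (k + 1) (j + 1) (by omega), sub_self, sub_self, sub_self]
  · intro k
    apply Subtype.ext
    change (E σ (n k) - E σ (n (k + 1))) * (E σ (n k) - E σ (n (k + 1))) =
      E σ (n k) - E σ (n (k + 1))
    rw [sub_mul, mul_sub, mul_sub, hEE k k le_rfl, hEE k (k + 1) (by omega),
      hEE' k (k + 1) (by omega), hEE (k + 1) (k + 1) le_rfl, sub_self, sub_zero]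
  · intro k
    change ‖(E σ (n k) - E σ (n (k + 1))) * (z : B)‖ ≤ 2 * c * (1 / 4) ^ k
    rw [sub_mul]
    refine (norm_sub_le _ _).trans ?_
    have h3 := hb k
    have h4 := hb (k + 1)
    have h5 : c * (1 / 4) ^ (k + 1) ≤ c * (1 / 4 : ℝ) ^ k := by
      apply mul_le_mul_of_nonneg_left _ hc.le
      exact pow_le_pow_of_le_one (by norm_num) (by norm_num) (Nat.le_succ k)
    linarith
  · rw [tendsto_subtype_rng]
    have h3 : ∀ K, ((∑ k ∈ range K, q k * z : A0 𝕜 σ) : B) = z - E σ (n K) * z := by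
      intro K
      induction K with
      | zero =>
        rw [sum_range_zero, hn0, E_zero, one_mul, sub_self]
        rfl
      | succ K ih =>
        rw [sum_range_succ]
        change ((∑ k ∈ range K, q k * z : A0 𝕜 σ) : B) +
          (E σ (n K) - E σ (n (K + 1))) * (z : B) = _
        rw [ih, sub_mul]
        abel
    simp_rw [h3]
    have h4 : Tendsto (fun K => E σ (n K) * (z : B)) atTop (𝓝 0) := by
      apply squeeze_zero_norm hb
      have := (tendsto_pow_atTop_nhds_zero_of_lt_one (r := (1 / 4 : ℝ)) (by norm_num)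
        (by norm_num)).const_mul c
      rwa [mul_zero] at this
    have h5 := h4.const_sub (z : B)
    rwa [sub_zero] at h5

/-- Rescaled factorization. -/
theorem factor_A0' (ε : ℝ) (hε : 0 < ε) (z : A0 𝕜 σ) (hz : ‖z‖ ≤ ε ^ 2) :
    ∃ a b : A0 𝕜 σ, a * b = z ∧ ‖a‖ ≤ 4 * ε ∧ ‖b‖ ≤ 4 * ε := by
  obtain ⟨a, b, h1, h2, h3⟩ := factor_A0 σ z (ε ^ 2) (by positivity) hz
  have hne : (ε : 𝕜) ≠ 0 := by
    exact_mod_cast hε.ne'
  have hnorm : ‖(ε : 𝕜)‖ = ε := by
    rw [RCLike.norm_ofReal, abs_of_pos hε]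
  refine ⟨(ε : 𝕜) • a, (ε : 𝕜)⁻¹ • b, ?_, ?_, ?_⟩
  · rw [smul_mul_assoc, mul_smul_comm, smul_smul, mul_inv_cancel₀ hne, one_smul, h1]
  · rw [norm_smul, hnorm]
    nlinarith
  · rw [norm_smul, norm_inv, hnorm]
    calc ε⁻¹ * ‖b‖ ≤ ε⁻¹ * (4 * ε ^ 2) := mul_le_mul_of_nonneg_left h3 (by positivity)
      _ = 4 * ε := by field_simp

/-- The multiplication of the algebra is uniformly open. -/
theorem unifOpen_A0 (ε : ℝ) (hε : 0 < ε) : ∃ δ : ℝ, 0 < δ ∧ ∀ x y z : A0 𝕜 σ, ‖z - x * y‖ < δ →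
    ∃ u v : A0 𝕜 σ, ‖u - x‖ < ε ∧ ‖v - y‖ < ε ∧ u * v = z := by
  refine ⟨(ε / 8) ^ 2 / 2, by positivity, fun x y z hz => ?_⟩
  set η : ℝ := ε / 8 with hη
  have hηpos : 0 < η := by positivity
  obtain ⟨N₁, hN₁⟩ := (Metric.tendsto_atTop.1 ((mem_A0 σ).1 x.2).2) (η / 2) (by positivity)
  obtain ⟨N₂, hN₂⟩ := (Metric.tendsto_atTop.1 ((mem_A0 σ).1 y.2).1) (η / 2) (by positivity)
  set N := max N₁ N₂ with hN
  have hx := hN₁ N (le_max_left _ _)
  have hy := hN₂ N (le_max_right _ _)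
  rw [dist_zero_right] at hx hy
  have hx' : ‖(x : B) * E σ N‖ ≤ η / 2 := by
    unfold E
    rw [← mul_assoc]
    exact (norm_mul_L_pow_le σ _ _).trans hx.le
  have hy' : ‖E σ N * (y : B)‖ ≤ η / 2 := (norm_E_mul_le σ _ _).trans hy.le
  have hEE : E σ N * E σ N = E σ N := E_mul_E_le σ le_rfl
  have hLE : σ.L ^ N * E σ N = σ.L ^ N := by
    unfold E
    rw [← mul_assoc, L_pow_mul_S_pow, one_mul]
  have hES : E σ N * σ.S ^ N = σ.S ^ N := by
    unfold E
    rw [mul_assoc, L_pow_mul_S_pow, mul_one]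
  -- the element to be factored
  have hmem : (z : B) - x * y + x * E σ N * (E σ N * y) ∈ A0 𝕜 σ := by
    apply add_mem
    · exact sub_mem z.2 (mul_mem x.2 y.2)
    · rw [mem_A0]
      constructor
      · have := ((mem_A0 σ).1 x.2).1.mul_const (E σ N * (E σ N * (y : B)))
        rw [zero_mul] at this
        refine this.congr fun n => ?_
        simp only [mul_assoc]
      · have := ((mem_A0 σ).1 y.2).2.const_mul ((x : B) * E σ N * E σ N)
        rw [mul_zero] at this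
        refine this.congr fun n => ?_
        simp only [mul_assoc]
  obtain ⟨a, b, hab, ha, hb⟩ := factor_A0' σ η hηpos ⟨_, hmem⟩ (by
    change ‖(z : B) - x * y + x * E σ N * (E σ N * y)‖ ≤ η ^ 2
    have h1 : ‖(z : B) - x * y‖ < η ^ 2 / 2 := hz
    have h2 : ‖(x : B) * E σ N * (E σ N * y)‖ ≤ (η / 2) * (η / 2) :=
      (norm_mul_le _ _).trans (mul_le_mul hx' hy' (norm_nonneg _) (by positivity))
    calc _ ≤ ‖(z : B) - x * y‖ + ‖(x : B) * E σ N * (E σ N * y)‖ := norm_add_le _ _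
      _ ≤ η ^ 2 := by nlinarith)
  have hab' : (a : B) * b = z - x * y + x * E σ N * (E σ N * y) := congrArg Subtype.val hab
  have hu : (x : B) * (1 - E σ N) + a * σ.L ^ N ∈ A0 𝕜 σ := by
    rw [mem_A0]
    constructor
    · have h1 := ((mem_A0 σ).1 x.2).1.mul_const (1 - E σ N)
      have h2 := ((mem_A0 σ).1 a.2).1.mul_const (σ.L ^ N)
      have h3 := h1.add h2
      rw [zero_mul, zero_mul, add_zero] at h3
      refine h3.congr fun n => ?_
      simp only [mul_add, mul_assoc]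
    · have h1 := ((mem_A0 σ).1 a.2).2
      have h2 : Tendsto (fun n => (a : B) * σ.S ^ (n - N)) atTop (𝓝 0) :=
        h1.comp (tendsto_sub_atTop_nat N)
      refine h2.congr' ?_
      filter_upwards [eventually_ge_atTop N] with n hn
      have e1 : (1 - E σ N) * σ.S ^ n = 0 := by
        rw [sub_mul, one_mul]
        unfold E
        rw [mul_assoc, L_pow_mul_S_pow_le σ hn, ← pow_add, show N + (n - N) = n by omega, sub_self]
      rw [add_mul, mul_assoc, e1, mul_zero, zero_add, mul_assoc, L_pow_mul_S_pow_le σ hn]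
  have hv : (1 - E σ N) * (y : B) + σ.S ^ N * b ∈ A0 𝕜 σ := by
    rw [mem_A0]
    constructor
    · have h1 := ((mem_A0 σ).1 b.2).1
      have h2 : Tendsto (fun n => σ.L ^ (n - N) * b) atTop (𝓝 0) :=
        h1.comp (tendsto_sub_atTop_nat N)
      refine h2.congr' ?_
      filter_upwards [eventually_ge_atTop N] with n hn
      have e1 : σ.L ^ n * (1 - E σ N) = 0 := by
        rw [mul_sub, mul_one]
        unfold E
        rw [← mul_assoc, L_pow_mul_S_pow_ge σ hn, ← pow_add, show n - N + N = n by omega, sub_self]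
      rw [mul_add, ← mul_assoc, e1, zero_mul, zero_add, ← mul_assoc, L_pow_mul_S_pow_ge σ hn]
    · have h1 := ((mem_A0 σ).1 y.2).2.const_mul (1 - E σ N)
      have h2 := ((mem_A0 σ).1 b.2).2.const_mul (σ.S ^ N)
      have h3 := h1.add h2
      rw [mul_zero, mul_zero, add_zero] at h3
      refine h3.congr fun n => ?_
      simp only [add_mul, mul_assoc]
  refine ⟨⟨_, hu⟩, ⟨_, hv⟩, ?_, ?_, ?_⟩
  · change ‖(x : B) * (1 - E σ N) + a * σ.L ^ N - x‖ < ε
    have e1 : (x : B) * (1 - E σ N) + a * σ.L ^ N - x = a * σ.L ^ N - x * E σ N := by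
      rw [mul_sub, mul_one]
      abel
    rw [e1]
    have h1 : ‖(a : B) * σ.L ^ N‖ ≤ 4 * η := (norm_mul_L_pow_le σ _ _).trans ha
    refine (norm_sub_le _ _).trans_lt ?_
    linarith
  · change ‖(1 - E σ N) * (y : B) + σ.S ^ N * b - y‖ < ε
    have e1 : (1 - E σ N) * (y : B) + σ.S ^ N * b - y = σ.S ^ N * b - E σ N * y := by
      rw [sub_mul, one_mul]
      abel
    rw [e1]
    have h1 : ‖σ.S ^ N * b‖ ≤ 4 * η := (norm_S_pow_mul_le σ _ _).trans hb
    refine (norm_sub_le _ _).trans_lt ?_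
    linarith
  · apply Subtype.ext
    change ((x : B) * (1 - E σ N) + a * σ.L ^ N) * ((1 - E σ N) * (y : B) + σ.S ^ N * b) = z
    have f1 : (1 - E σ N) * (1 - E σ N) = 1 - E σ N := by
      rw [sub_mul, one_mul, mul_sub, mul_one, hEE, sub_self, sub_zero]
    have f2 : (1 - E σ N) * σ.S ^ N = 0 := by rw [sub_mul, one_mul, hES, sub_self]
    have f3 : σ.L ^ N * (1 - E σ N) = 0 := by rw [mul_sub, mul_one, hLE, sub_self]
    calc ((x : B) * (1 - E σ N) + a * σ.L ^ N) * ((1 - E σ N) * (y : B) + σ.S ^ N * b)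
        = x * ((1 - E σ N) * (1 - E σ N)) * y + x * ((1 - E σ N) * σ.S ^ N) * b
          + a * (σ.L ^ N * (1 - E σ N)) * y + a * (σ.L ^ N * σ.S ^ N) * b := by noncomm_ring
      _ = x * (1 - E σ N) * y + a * b := by
          rw [f1, f2, f3, L_pow_mul_S_pow, mul_zero, zero_mul, mul_zero, zero_mul, mul_one,
            add_zero, add_zero]
      _ = z := by
          rw [hab', mul_sub, mul_one, sub_mul]
          have : (x : B) * E σ N * (E σ N * y) = x * E σ N * y := by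
            rw [mul_assoc, ← mul_assoc (E σ N), hEE, ← mul_assoc]
          rw [this]
          abel

end ops

end Pool.Agent.Q258.Arens
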