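import Pool.Agent.Q258.Arens.Alg

set_option autoImplicit false

/-!
# Extension of a representation to the bidual, and failure of weak openness
-/

namespace Pool.Agent.Q258.Arens

open Filter Topology

section lemmas

variable {R : Type} [NormedRing R] [CompleteSpace R] (σ : Shifts R)

theorem unit_aux {x : R} (h : ‖x‖ < 1) : IsUnit (1 + x) := by
  have := isUnit_one_sub_of_norm_lt_one (x := -x) (by rwa [norm_neg])
  rwa [sub_neg_eq_add] at this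

theorem isUnit_vS {v : R} (hv : ‖v - σ.L‖ < 1) : IsUnit (v * σ.S) := by
  have h1 : v * σ.S = 1 + (v - σ.L) * σ.S := by
    rw [sub_mul, σ.LS]
    abel
  rw [h1]
  apply unit_aux
  calc ‖(v - σ.L) * σ.S‖ ≤ ‖v - σ.L‖ * ‖σ.S‖ := norm_mul_le _ _
    _ ≤ ‖v - σ.L‖ * 1 := mul_le_mul_of_nonneg_left σ.norm_S (norm_nonneg _)
    _ < 1 := by rw [mul_one]; exact hv

theorem isUnit_Lu {u : R} (hu : ‖u - σ.S‖ < 1) : IsUnit (σ.L * u) := by
  have h1 : σ.L * u = 1 + σ.L * (u - σ.S) := by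
    rw [mul_sub, σ.LS]
    abel
  rw [h1]
  apply unit_aux
  calc ‖σ.L * (u - σ.S)‖ ≤ ‖σ.L‖ * ‖u - σ.S‖ := norm_mul_le _ _
    _ ≤ 1 * ‖u - σ.S‖ := mul_le_mul_of_nonneg_right σ.norm_L (norm_nonneg _)
    _ < 1 := by rw [one_mul]; exact hu

theorem exists_annihilated (hne : σ.S * σ.L ≠ 1) {v : R} (hv : ‖v - σ.L‖ < 1) :
    ∃ x : R, x ≠ 0 ∧ v * x = 0 := by
  obtain ⟨w, hw⟩ := isUnit_vS σ hv
  refine ⟨1 - σ.S * ↑w⁻¹ * v, ?_, ?_⟩
  · intro h0
    have h1 : σ.S * ↑w⁻¹ * v = 1 := (sub_eq_zero.1 h0).symm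
    have h2 : σ.L = ↑w⁻¹ * v := by
      calc σ.L = σ.L * (σ.S * ↑w⁻¹ * v) := by rw [h1, mul_one]
        _ = (σ.L * σ.S) * ↑w⁻¹ * v := by simp only [mul_assoc]
        _ = ↑w⁻¹ * v := by rw [σ.LS, one_mul]
    apply hne
    rw [h2, ← mul_assoc, h1]
  · rw [mul_sub, mul_one]
    have : v * (σ.S * ↑w⁻¹ * v) = (v * σ.S) * ↑w⁻¹ * v := by simp only [mul_assoc]
    rw [this, ← hw, Units.mul_inv, one_mul, sub_self]

theorem perturbed_injective {u v x e : R} (hu : ‖u - σ.S‖ < 1) (hv : ‖v - σ.L‖ < 1)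
    (hLe : σ.L * e = 0) (he : e * x = 0 → x = σ.S * (σ.L * x)) (h : (u * v + e) * x = 0) :
    x = 0 := by
  obtain ⟨w, hw⟩ := isUnit_vS σ hv
  obtain ⟨w', hw'⟩ := isUnit_Lu σ hu
  have h1 : (σ.L * u) * (v * x) = 0 := by
    have : σ.L * ((u * v + e) * x) = 0 := by rw [h, mul_zero]
    rw [add_mul, mul_add, ← mul_assoc σ.L e, hLe, zero_mul, add_zero] at this
    rw [← this]
    simp only [mul_assoc]
  rw [← hw'] at h1
  have h2 : v * x = 0 := (Units.mul_right_eq_zero w').1 h1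
  have h3 : e * x = 0 := by
    rw [add_mul, mul_assoc, h2, mul_zero, zero_add] at h
    exact h
  have h4 := he h3
  have h5 : (v * σ.S) * (σ.L * x) = 0 := by
    rw [mul_assoc, ← h4, h2]
  rw [← hw] at h5
  have h6 : σ.L * x = 0 := (Units.mul_right_eq_zero w).1 h5
  rw [h4, h6, mul_zero]

variable {𝕜 : Type} [RCLike 𝕜] [NormedAlgebra 𝕜 R] {X : Type} [NormedAddCommGroup X]
  [NormedSpace 𝕜 X]

theorem not_weaklyOpen (Φ : X →L[𝕜] R) (m : X → X → X) (hm : ∀ F G, Φ (m F G) = Φ F * Φ G)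
    (hne : σ.S * σ.L ≠ 1) (F₁ F₂ E₀ : X) (h1 : Φ F₁ = σ.S) (h2 : Φ F₂ = σ.L)
    (h3 : Φ E₀ = 1 - σ.S * σ.L) :
    ∃ U : Set (X × X), IsOpen U ∧ U.Nonempty ∧ interior ((fun p : X × X => m p.1 p.2) '' U) = ∅ := by
  refine ⟨{p | ‖Φ p.1 - σ.S‖ < 1 ∧ ‖Φ p.2 - σ.L‖ < 1}, ?_, ⟨(F₁, F₂), ?_⟩, ?_⟩
  · apply IsOpen.inter
    · exact isOpen_lt ((Φ.continuous.comp continuous_fst).sub continuous_const).norm
        continuous_const
    · exact isOpen_lt ((Φ.continuous.comp continuous_snd).sub continuous_const).norm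
        continuous_const
  · constructor
    · change ‖Φ F₁ - σ.S‖ < 1
      rw [h1, sub_self, norm_zero]
      exact zero_lt_one
    · change ‖Φ F₂ - σ.L‖ < 1
      rw [h2, sub_self, norm_zero]
      exact zero_lt_one
  · rw [Set.eq_empty_iff_forall_notMem]
    intro N₀ hN₀
    rw [mem_interior_iff_mem_nhds, Metric.mem_nhds_iff] at hN₀
    obtain ⟨r, hr, hball⟩ := hN₀
    obtain ⟨⟨F₀, G₀⟩, ⟨hF₀, hG₀⟩, hFG⟩ := hball (Metric.mem_ball_self hr)
    -- small multiple of `E₀`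
    obtain ⟨ε, hε, hεr⟩ : ∃ ε : ℝ, 0 < ε ∧ ε * ‖E₀‖ < r := by
      refine ⟨r / (‖E₀‖ + 1), by positivity, ?_⟩
      rw [div_mul_eq_mul_div, div_lt_iff₀ (by positivity)]
      nlinarith [norm_nonneg E₀]
    have hmem : N₀ + (ε : 𝕜) • E₀ ∈ Metric.ball N₀ r := by
      rw [Metric.mem_ball, dist_eq_norm, add_sub_cancel_left, norm_smul, RCLike.norm_ofReal,
        abs_of_pos hε]
      exact hεr
    obtain ⟨⟨F, G⟩, ⟨hF, hG⟩, hFG'⟩ := hball hmem
    have e1 : Φ F * Φ G = Φ F₀ * Φ G₀ + (ε : 𝕜) • (1 - σ.S * σ.L) := by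
      rw [← hm, ← hm, ← h3, ← map_smul, ← map_add]
      change m F G = _ at hFG'
      change m F₀ G₀ = _ at hFG
      rw [hFG', hFG]
    obtain ⟨x, hx0, hx⟩ := exists_annihilated σ hne hG
    apply hx0
    refine perturbed_injective σ (e := (ε : 𝕜) • (1 - σ.S * σ.L)) hF₀ hG₀ ?_ ?_ ?_
    · rw [mul_smul_comm, mul_sub, mul_one, ← mul_assoc, σ.LS, one_mul, sub_self, smul_zero]
    · intro h
      rw [smul_mul_assoc, smul_eq_zero] at h
      rcases h with h | h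
      · exfalso
        have : (ε : 𝕜) ≠ 0 := by exact_mod_cast hε.ne'
        exact this h
      · rw [sub_mul, one_mul, sub_eq_zero, mul_assoc] at h
        exact h
    · rw [← e1, mul_assoc, hx, mul_zero]

end lemmas

section rep

variable {𝕜 : Type} [RCLike 𝕜] {V : Type} [NormedAddCommGroup V] [InnerProductSpace 𝕜 V]
  [CompleteSpace V] {A : Type} [NonUnitalNormedRing A] [NormedSpace 𝕜 A]
  (π : A →L[𝕜] (V →L[𝕜] V))

/-- vector functionals -/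
noncomputable def ω (ξ η : V) : A →L[𝕜] 𝕜 :=
  (innerSL 𝕜 η).comp ((ContinuousLinearMap.apply 𝕜 V ξ).comp π)

theorem ω_apply (ξ η : V) (a : A) : ω π ξ η a = (inner 𝕜 (η) (π a ξ)) := rfl

theorem norm_ω_le (ξ η : V) : ‖ω π ξ η‖ ≤ ‖π‖ * ‖η‖ * ‖ξ‖ := by
  apply ContinuousLinearMap.opNorm_le_bound _ (by positivity)
  intro a
  rw [ω_apply]
  calc ‖(inner 𝕜 (η) (π a ξ))‖ ≤ ‖η‖ * ‖π a ξ‖ := norm_inner_le_norm _ _
    _ ≤ ‖η‖ * (‖π a‖ * ‖ξ‖) := mul_le_mul_of_nonneg_left ((π a).le_opNorm ξ) (norm_nonneg _)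
    _ ≤ ‖η‖ * ((‖π‖ * ‖a‖) * ‖ξ‖) := by
        gcongr
        exact π.le_opNorm a
    _ = _ := by ring

/-- the form `(η, ξ) ↦ F (ω ξ η)` -/
noncomputable def formL (F : (A →L[𝕜] 𝕜) →L[𝕜] 𝕜) : V →ₗ⋆[𝕜] V →ₗ[𝕜] 𝕜 :=
  LinearMap.mk₂'ₛₗ (starRingEnd 𝕜) (RingHom.id 𝕜) (fun η ξ => F (ω π ξ η))
    (fun η η' ξ => by
      rw [← map_add]
      congr 1
      ext a
      simp only [ω_apply, _root_.add_apply, inner_add_left])
    (fun c η ξ => by
      rw [smul_eq_mul, ← smul_eq_mul, ← map_smul]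
      congr 1
      ext a
      simp only [ω_apply, _root_.smul_apply, inner_smul_left, smul_eq_mul])
    (fun η ξ ξ' => by
      rw [← map_add]
      congr 1
      ext a
      simp only [ω_apply, _root_.add_apply, map_add, inner_add_right])
    (fun c η ξ => by
      rw [RingHom.id_apply, ← map_smul]
      congr 1
      ext a
      simp only [ω_apply, _root_.smul_apply, map_smul, inner_smul_right, smul_eq_mul])

theorem formL_apply (F : (A →L[𝕜] 𝕜) →L[𝕜] 𝕜) (η ξ : V) : formL π F η ξ = F (ω π ξ η) := rfl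

theorem formL_bound (F : (A →L[𝕜] 𝕜) →L[𝕜] 𝕜) (η ξ : V) :
    ‖formL π F η ξ‖ ≤ (‖F‖ * ‖π‖) * ‖η‖ * ‖ξ‖ := by
  rw [formL_apply]
  calc ‖F (ω π ξ η)‖ ≤ ‖F‖ * ‖ω π ξ η‖ := F.le_opNorm _
    _ ≤ ‖F‖ * (‖π‖ * ‖η‖ * ‖ξ‖) := by
        gcongr
        exact norm_ω_le π ξ η
    _ = _ := by ring

/-- extension of the representation to the bidual -/
noncomputable def rep0 (F : (A →L[𝕜] 𝕜) →L[𝕜] 𝕜) : V →L[𝕜] V :=
  ContinuousLinearMap.adjoint (InnerProductSpace.continuousLinearMapOfBilin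
    ((formL π F).mkContinuous₂ (‖F‖ * ‖π‖) (formL_bound π F)))

theorem inner_rep0 (F : (A →L[𝕜] 𝕜) →L[𝕜] 𝕜) (η ξ : V) : (inner 𝕜 (η) (rep0 π F ξ)) = F (ω π ξ η) := by
  unfold rep0
  rw [ContinuousLinearMap.adjoint_inner_right, InnerProductSpace.continuousLinearMapOfBilin_apply,
    LinearMap.mkContinuous₂_apply, formL_apply]

theorem rep0_eq_iff (F : (A →L[𝕜] 𝕜) →L[𝕜] 𝕜) (T : V →L[𝕜] V) :
    rep0 π F = T ↔ ∀ η ξ, F (ω π ξ η) = (inner 𝕜 (η) (T ξ)) := by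
  constructor
  · rintro rfl η ξ
    rw [inner_rep0]
  · intro h
    ext ξ
    apply ext_inner_left 𝕜
    intro η
    rw [inner_rep0, h]

/-- extension of the representation to the bidual, as a continuous linear map -/
noncomputable def rep : ((A →L[𝕜] 𝕜) →L[𝕜] 𝕜) →L[𝕜] (V →L[𝕜] V) :=
  LinearMap.mkContinuous
    { toFun := rep0 π
      map_add' := fun F G => by
        rw [rep0_eq_iff]
        intro η ξ
        rw [_root_.add_apply, _root_.add_apply, inner_add_right,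
          inner_rep0, inner_rep0]
      map_smul' := fun c F => by
        rw [rep0_eq_iff]
        intro η ξ
        rw [RingHom.id_apply, _root_.smul_apply, _root_.smul_apply,
          inner_smul_right, inner_rep0, smul_eq_mul] }
    ‖π‖ (by
      intro F
      apply ContinuousLinearMap.opNorm_le_bound _ (by positivity)
      intro ξ
      change ‖rep0 π F ξ‖ ≤ _
      by_cases h0 : rep0 π F ξ = 0
      · rw [h0, norm_zero]
        positivity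
      have h1 : ‖(inner 𝕜 (rep0 π F ξ) (rep0 π F ξ))‖ ≤ (‖F‖ * ‖π‖) * ‖rep0 π F ξ‖ * ‖ξ‖ := by
        rw [inner_rep0, ← formL_apply]
        exact formL_bound π F _ _
      rw [inner_self_eq_norm_sq_to_K, norm_pow, RCLike.norm_ofReal, abs_norm] at h1
      have h2 : 0 < ‖rep0 π F ξ‖ := norm_pos_iff.2 h0
      have h3 : ‖rep0 π F ξ‖ * ‖rep0 π F ξ‖ ≤ ‖rep0 π F ξ‖ * (‖π‖ * ‖F‖ * ‖ξ‖) := by
        nlinarith
      exact le_of_mul_le_mul_left h3 h2)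

theorem inner_rep (F : (A →L[𝕜] 𝕜) →L[𝕜] 𝕜) (η ξ : V) : (inner 𝕜 (η) (rep π F ξ)) = F (ω π ξ η) :=
  inner_rep0 π F η ξ

theorem rep_eq_iff (F : (A →L[𝕜] 𝕜) →L[𝕜] 𝕜) (T : V →L[𝕜] V) :
    rep π F = T ↔ ∀ η ξ, F (ω π ξ η) = (inner 𝕜 (η) (T ξ)) := rep0_eq_iff π F T

/-- Weak limits of bounded sequences in the range are in the range of the extension. -/
theorem exists_preimage (t : ℕ → A) (C : ℝ) (hC : ∀ n, ‖t n‖ ≤ C) (T : V →L[𝕜] V)
    (hT : ∀ ξ η, Tendsto (fun n => (inner 𝕜 (η) (π (t n) ξ))) atTop (𝓝 (inner 𝕜 (η) (T ξ)))) :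
    ∃ F, rep π F = T := by
  have hex : ∀ f : A →L[𝕜] 𝕜, ∃ c : 𝕜, ‖c‖ ≤ C * ‖f‖ ∧
      Tendsto (fun n => f (t n)) (hyperfilter ℕ : Filter ℕ) (𝓝 c) := by
    intro f
    have hcomp := isCompact_closedBall (0 : 𝕜) (C * ‖f‖)
    obtain ⟨c, hc, hlim⟩ := hcomp.ultrafilter_le_nhds ((hyperfilter ℕ).map (fun n => f (t n))) (by
      rw [Ultrafilter.coe_map, le_principal_iff, Filter.mem_map]
      apply Filter.univ_mem'
      intro n
      rw [Set.mem_preimage, mem_closedBall_zero_iff]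
      calc ‖f (t n)‖ ≤ ‖f‖ * ‖t n‖ := f.le_opNorm _
        _ ≤ ‖f‖ * C := mul_le_mul_of_nonneg_left (hC n) (norm_nonneg _)
        _ = _ := mul_comm _ _)
    exact ⟨c, mem_closedBall_zero_iff.1 hc, hlim⟩
  choose F0 hF0 hF0' using hex
  refine ⟨LinearMap.mkContinuous
    { toFun := F0
      map_add' := fun f g => ?_
      map_smul' := fun c f => ?_ } C hF0, ?_⟩
  · exact tendsto_nhds_unique (hF0' (f + g)) ((hF0' f).add (hF0' g))
  · exact tendsto_nhds_unique (hF0' (c • f)) ((hF0' f).const_smul c)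
  · rw [rep_eq_iff]
    intro η ξ
    have h1 : Tendsto (fun n => ω π ξ η (t n)) (hyperfilter ℕ : Filter ℕ) (𝓝 (inner 𝕜 (η) (T ξ))) :=
      (hT ξ η).mono_left Nat.hyperfilter_le_atTop
    exact tendsto_nhds_unique (hF0' _) h1

end rep

end Pool.Agent.Q258.Arens
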