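import Mathlib

set_option autoImplicit false

/-!
# The shifts on `ℓ²` 
-/

namespace Pool.Agent.Q258.Arens

open Filter Topology

section
variable (𝕜 : Type) [RCLike 𝕜]

/-- The Hilbert space `ℓ²(ℕ)`. -/
abbrev H := lp (fun _ : ℕ => 𝕜) 2

variable {𝕜}

theorem hasSum_sq (x : H 𝕜) : HasSum (fun i => ‖x i‖ ^ 2) (‖x‖ ^ 2) := by
  have h := lp.hasSum_norm (p := 2) (by norm_num) x
  simpa using h

theorem mem_of_summable {f : ℕ → 𝕜} (h : Summable fun i => ‖f i‖ ^ 2) :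
    Memℓp (E := fun _ : ℕ => 𝕜) f 2 := by
  apply memℓp_gen
  simpa using h

/-- left shift, linear map -/
noncomputable def leftLin : H 𝕜 →ₗ[𝕜] H 𝕜 where
  toFun x := ⟨fun n => x (n + 1), mem_of_summable
    ((summable_nat_add_iff (f := fun i => ‖x i‖ ^ 2) 1).2 (hasSum_sq x).summable)⟩
  map_add' x y := by
    ext n
    rfl
  map_smul' c x := by
    ext n
    rfl

theorem leftLin_apply (x : H 𝕜) (n : ℕ) : leftLin x n = x (n + 1) := rfl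

theorem leftLin_sq (x : H 𝕜) : ‖leftLin x‖ ^ 2 + ‖x 0‖ ^ 2 = ‖x‖ ^ 2 := by
  have h1 : HasSum (fun i => ‖x (i + 1)‖ ^ 2) (‖leftLin x‖ ^ 2) := hasSum_sq (leftLin x)
  have h3 := (hasSum_nat_add_iff (f := fun i => ‖x i‖ ^ 2) 1).1 h1
  simp only [Finset.range_one, Finset.sum_singleton] at h3
  exact h3.unique (hasSum_sq x)

theorem leftLin_norm (x : H 𝕜) : ‖leftLin x‖ ≤ 1 * ‖x‖ := by
  rw [one_mul]
  have h := leftLin_sq x
  have h0 : 0 ≤ ‖x 0‖ ^ 2 := by positivity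
  nlinarith [norm_nonneg x, norm_nonneg (leftLin x)]

/-- the shifted sequence -/
def shiftSeq (x : ℕ → 𝕜) : ℕ → 𝕜
  | 0 => 0
  | (n + 1) => x n

/-- right shift, linear map -/
noncomputable def rightLin : H 𝕜 →ₗ[𝕜] H 𝕜 where
  toFun x := ⟨shiftSeq x, mem_of_summable
    ((summable_nat_add_iff (f := fun i => ‖shiftSeq x i‖ ^ 2) 1).1 (hasSum_sq x).summable)⟩
  map_add' x y := by
    ext n
    cases n with
    | zero => 
      change (0 : 𝕜) = 0 + 0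
      rw [add_zero]
    | succ n => rfl
  map_smul' c x := by
    ext n
    cases n with
    | zero => 
      change (0 : 𝕜) = c • 0
      rw [smul_zero]
    | succ n => rfl

theorem rightLin_zero (x : H 𝕜) : rightLin x 0 = 0 := rfl

theorem rightLin_succ (x : H 𝕜) (n : ℕ) : rightLin x (n + 1) = x n := rfl

theorem left_right (x : H 𝕜) : leftLin (rightLin x) = x := by
  ext n
  rfl

theorem rightLin_norm (x : H 𝕜) : ‖rightLin x‖ ≤ 1 * ‖x‖ := by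
  rw [one_mul]
  have h := leftLin_sq (rightLin x)
  rw [left_right, rightLin_zero, norm_zero] at h
  nlinarith [norm_nonneg x, norm_nonneg (rightLin x)]

/-- left shift -/
noncomputable def L : H 𝕜 →L[𝕜] H 𝕜 := leftLin.mkContinuous 1 leftLin_norm

/-- right shift -/
noncomputable def S : H 𝕜 →L[𝕜] H 𝕜 := rightLin.mkContinuous 1 rightLin_norm

theorem norm_L : ‖(L : H 𝕜 →L[𝕜] H 𝕜)‖ ≤ 1 := LinearMap.mkContinuous_norm_le _ zero_le_one _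

theorem norm_S : ‖(S : H 𝕜 →L[𝕜] H 𝕜)‖ ≤ 1 := LinearMap.mkContinuous_norm_le _ zero_le_one _

theorem L_mul_S : (L : H 𝕜 →L[𝕜] H 𝕜) * S = 1 := by
  ext x n
  rfl

theorem S_mul_L_ne : (S : H 𝕜 →L[𝕜] H 𝕜) * L ≠ 1 := by
  intro h
  have h1 := congrArg (fun T : H 𝕜 →L[𝕜] H 𝕜 => T (lp.single 2 0 (1 : 𝕜)) 0) h
  have h2 : (((S : H 𝕜 →L[𝕜] H 𝕜) * L : H 𝕜 →L[𝕜] H 𝕜) (lp.single 2 0 (1 : 𝕜))) 0 = (0 : 𝕜) := rfl
  have h3 : (1 : H 𝕜 →L[𝕜] H 𝕜) (lp.single 2 0 (1 : 𝕜)) 0 = (1 : 𝕜) := by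
    change (lp.single 2 0 (1 : 𝕜) : H 𝕜) 0 = 1
    simp
  beta_reduce at h1
  rw [h2, h3] at h1
  exact zero_ne_one h1

theorem L_pow_apply (x : H 𝕜) (n k : ℕ) : ((L : H 𝕜 →L[𝕜] H 𝕜) ^ n) x k = x (k + n) := by
  induction n generalizing k with
  | zero => rfl
  | succ n ih =>
    rw [pow_succ']
    change ((L : H 𝕜 →L[𝕜] H 𝕜) ^ n) x (k + 1) = _
    rw [ih, show k + 1 + n = k + (n + 1) by omega]

theorem tendsto_L_pow (x : H 𝕜) :
    Tendsto (fun n => ((L : H 𝕜 →L[𝕜] H 𝕜) ^ n) x) atTop (𝓝 0) := by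
  rw [tendsto_zero_iff_norm_tendsto_zero]
  have h1 : ∀ n, ‖((L : H 𝕜 →L[𝕜] H 𝕜) ^ n) x‖ ^ 2 = ∑' k, ‖x (k + n)‖ ^ 2 := by
    intro n
    rw [← (hasSum_sq _).tsum_eq]
    apply tsum_congr
    intro k
    rw [L_pow_apply]
  have h2 := tendsto_sum_nat_add (fun k => ‖x k‖ ^ 2)
  have h3 : Tendsto (fun n => Real.sqrt (‖((L : H 𝕜 →L[𝕜] H 𝕜) ^ n) x‖ ^ 2)) atTop (𝓝 (Real.sqrt 0)) := by
    apply (Real.continuous_sqrt.tendsto 0).comp
    refine h2.congr fun n => ?_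
    rw [h1]
  rw [Real.sqrt_zero] at h3
  refine h3.congr fun n => ?_
  rw [Real.sqrt_sq (norm_nonneg _)]

end

end Pool.Agent.Q258.Arens
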